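import Pool.Agent.P.MP_aef18a_nt.Ad.All
import Pool.Agent.P.MP_aef18a_nt.Ad.Fac2

namespace Pool.Agent.Results.MP_aef18a_nt.NonUnitFaces

open Pool.Agent.P.MP_aef18a_nt

/-- Let `F` be irreducible with integer coefficients `c`, and let `C` be a closed cone of
directions. Suppose that for each `x ∈ C` and each vertex `u` of the face of the Newton polytope
cut out by `x` some prime `q` divides all coefficients on that face but not all coefficients of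
`F`, and `q ^ (k + 1)` does not divide `c u`. Then, off finitely many hyperplanes, `F(t^a)^*` is a
product of at least one and at most `k` irreducibles for every `a ∈ C`. -/
theorem result (n k : ℕ) (F : LP n) (c : (Fin n → ℤ) → ℤ) (hc : ∀ u, F.coeff u = c u)
    (hF : Irreducible F) (C : Set (Fin n → ℝ)) (hC : IsClosed C)
    (hC' : ∀ x ∈ C, ∀ t : ℝ, 0 < t → ∀ y : Fin n → ℝ,
      (∀ u w, c u ≠ 0 → c w ≠ 0 → pt u ⬝ᵥ y = pt w ⬝ᵥ y) → t • x + y ∈ C)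
    (h : ∀ x ∈ C, (∃ u w, c u ≠ 0 ∧ c w ≠ 0 ∧ pt u ⬝ᵥ x ≠ pt w ⬝ᵥ x) →
      ∀ u, pt u ∈ (newt F).extremePoints ℝ → (∀ w, c w ≠ 0 → pt w ⬝ᵥ x ≤ pt u ⬝ᵥ x) →
        ∃ q : ℕ, q.Prime ∧ (∃ w, ¬ (q : ℤ) ∣ c w) ∧
          (∀ w, pt w ⬝ᵥ x = pt u ⬝ᵥ x → (q : ℤ) ∣ c w) ∧ ¬ (q : ℤ) ^ (k + 1) ∣ c u) :
    ∃ Γ : Finset (Fin n → ℤ), 0 ∉ Γ ∧ ∀ a : Fin n → ℤ, pt a ∈ C → (∀ γ ∈ Γ, γ ⬝ᵥ a ≠ 0) →
      ∃ s : Multiset (LaurentPolynomial ℚ), s ≠ 0 ∧ s.card ≤ k ∧ (∀ p ∈ s, Irreducible p) ∧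
        IsStar (spec a F) s.prod :=
  coneFac (fac2 czT mlT) hc hF hC hC' h

/-- The case `k = 1`, `C = ℝ^n` is the conjecture of Schinzel for `F`. -/
theorem schinzel (n : ℕ) (F : LP n) (c : (Fin n → ℤ) → ℤ) (hc : ∀ u, F.coeff u = c u)
    (hF : Irreducible F)
    (h : ∀ x : Fin n → ℝ, (∃ u w, c u ≠ 0 ∧ c w ≠ 0 ∧ pt u ⬝ᵥ x ≠ pt w ⬝ᵥ x) →
      ∀ u, pt u ∈ (newt F).extremePoints ℝ → (∀ w, c w ≠ 0 → pt w ⬝ᵥ x ≤ pt u ⬝ᵥ x) →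
        ∃ q : ℕ, q.Prime ∧ (∃ w, ¬ (q : ℤ) ∣ c w) ∧
          (∀ w, pt w ⬝ᵥ x = pt u ⬝ᵥ x → (q : ℤ) ∣ c w) ∧ ¬ (q : ℤ) ^ 2 ∣ c u) :
    Schinzel F := by
  obtain ⟨Γ, h0, hΓ⟩ := result n 1 F c hc hF Set.univ isClosed_univ (fun _ _ _ _ _ _ => trivial)
    fun x _ => h x
  refine schinzel_of hF ⟨Γ, h0, fun a ha => ?_⟩
  obtain ⟨s, s0, s1, s2, s3⟩ := hΓ a trivial ha
  obtain ⟨g, rfl⟩ := Multiset.card_eq_one.mp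
    (le_antisymm s1 (Multiset.card_pos.mpr s0))
  exact ⟨g, by simpa using s3, s2 g (by simp)⟩

end Pool.Agent.Results.MP_aef18a_nt.NonUnitFaces
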