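import Pool.Agent.P.MP_aef18a_nt.TW.All

namespace Pool.Agent.Results.MP_aef18a_nt.Tempered

open Pool.Agent.P.MP_aef18a_nt Matrix

open Classical in
/-- The face polynomial of `F` in the direction `x`: the terms of `F` whose exponent maximizes
`⟨·, x⟩` on the support. -/
noncomputable def face {n : ℕ} (F : LP n) (x : Fin n → ℝ) : LP n :=
  ∑ u ∈ F.coeff.support with (∀ w ∈ F.coeff.support, pt w ⬝ᵥ x ≤ pt u ⬝ᵥ x),
    AddMonoidAlgebra.single u (F.coeff u)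

/-- The conjecture of Schinzel on closed cones of cyclotomic directions. Let `F` be irreducible
with support not on a line. There is a finite set `Ω` of nonsingular matrices such that for each
closed cone `C` of directions whose face polynomials divide products of binomials `1 - x^v` there
is a finite set `Γ` of nonzero vectors such that each `a ∈ C` satisfies (i) or (ii). -/
theorem result (n : ℕ) (F : LP n) (hF : Irreducible F)
    (hc : ¬ Collinear ℝ (pt '' (F.coeff.support : Set (Fin n → ℤ)))) :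
    ∃ Ω : Finset (Matrix (Fin n) (Fin n) ℤ), (∀ M ∈ Ω, M.det ≠ 0) ∧
    ∀ C : Set (Fin n → ℝ), IsClosed C →
      (∀ x ∈ C, ∀ t : ℝ, 0 < t → ∀ y : Fin n → ℝ,
        (∀ u w, F.coeff u ≠ 0 → F.coeff w ≠ 0 → pt u ⬝ᵥ y = pt w ⬝ᵥ y) → t • x + y ∈ C) →
      (∀ x ∈ C, (∃ u w, F.coeff u ≠ 0 ∧ F.coeff w ≠ 0 ∧ pt u ⬝ᵥ x ≠ pt w ⬝ᵥ x) →
        ∃ V : Multiset (Fin n → ℤ), 0 ∉ V ∧
          face F x ∣ (V.map fun v => 1 - AddMonoidAlgebra.single v 1).prod) →
      ∃ Γ : Finset (Fin n → ℤ), 0 ∉ Γ ∧ ∀ a : Fin n → ℤ, pt a ∈ C →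
        (∃ c ∈ Γ, c ⬝ᵥ a = 0) ∨
        ∃ M ∈ Ω, ∃ b : Fin n → ℤ, a = M *ᵥ b ∧
          ∀ (s : Finset (LP n)) (e : LP n → ℕ), (∀ P ∈ s, Irreducible P ∧ 0 < e P) →
            (s : Set (LP n)).Pairwise (fun P Q => ¬ Associated P Q) →
            Associated (subst M F) (∏ P ∈ s, P ^ e P) →
            ∃ (g : LaurentPolynomial ℚ) (p : LP n → LaurentPolynomial ℚ), IsStar (spec a F) g ∧
              (∀ P ∈ s, IsStar (spec b P) (p P) ∧ Irreducible (p P)) ∧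
              (s : Set (LP n)).Pairwise (fun P Q => ¬ Associated (p P) (p Q)) ∧
              Associated g (∏ P ∈ s, p P ^ e P) := by
  classical
  obtain ⟨Ω, hΩ, h⟩ := TW.cone3 TW.t_Fin3 hF (OW.p_Col n F hc)
  refine ⟨Ω, hΩ, fun C hC hC' hT => h C hC (fun x hx t ht y hy => hC' x hx t ht y fun u w hu hw =>
    hy u (Finsupp.mem_support_iff.2 hu) w (Finsupp.mem_support_iff.2 hw)) ?_⟩
  rintro x hx ⟨u, hu, w, hw, hne⟩ u₀ hu₀ hm
  obtain ⟨V, h0, hV⟩ := hT x hx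
    ⟨u, w, Finsupp.mem_support_iff.1 hu, Finsupp.mem_support_iff.1 hw, hne⟩
  refine ⟨V, fun v hv e => h0 (e ▸ hv), ?_⟩
  have e : lev (lin x) (lin x u₀) F = face F x := by
    rw [← TW.res_lev, TW.res, face]
    refine Finset.sum_congr (Finset.ext fun z => ?_) fun _ _ => rfl
    rw [TW.mem_lev, Finset.mem_filter]
    exact and_congr_right fun hz => ⟨fun e w hw => (hm w hw).trans e.ge,
      fun e => le_antisymm (hm z hz) (e u₀ hu₀)⟩
  rw [e]
  exact hV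

/-- The case `C = ℝ^n` is the conjecture of Schinzel for `F`. -/
theorem schinzel (n : ℕ) (F : LP n) (hF : Irreducible F)
    (hc : ¬ Collinear ℝ (pt '' (F.coeff.support : Set (Fin n → ℤ))))
    (h : ∀ x : Fin n → ℝ, (∃ u w, F.coeff u ≠ 0 ∧ F.coeff w ≠ 0 ∧ pt u ⬝ᵥ x ≠ pt w ⬝ᵥ x) →
      ∃ V : Multiset (Fin n → ℤ), 0 ∉ V ∧
        face F x ∣ (V.map fun v => 1 - AddMonoidAlgebra.single v 1).prod) : Schinzel F := by
  obtain ⟨Ω, hΩ, hC⟩ := result n F hF hc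
  obtain ⟨Γ, h0, hΓ⟩ := hC Set.univ isClosed_univ (fun _ _ _ _ _ _ => trivial) fun x _ => h x
  exact ⟨Γ, h0, Ω, hΩ, fun a => hΓ a trivial⟩

end Pool.Agent.Results.MP_aef18a_nt.Tempered
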